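import Mathlib
import Pool.Agent.Lib.MP_6603ca_an.Defs
import Pool.Agent.Lib.MP_6603ca_an.Main

open MeasureTheory Topology Set Filter
open Pool.Agent.Lib.MP_6603ca_an

namespace Pool.Agent.Results.MP_6603ca_an.UpeNoErgodicFullSupport

/-- There is a topological dynamical system (a homeomorphism `T` of a non-empty compact metrizable
space `X`) with uniform positive entropy such that the support of every ergodic `T`-invariant Borel
probability measure is a proper (closed) subset of `X`. -/
theorem result :
    ∃ (X : Type) (_ : TopologicalSpace X) (_ : CompactSpace X)
      (_ : TopologicalSpace.MetrizableSpace X) (_ : Nonempty X) (T : X ≃ₜ X),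
      UniformPositiveEntropy T ∧
      ∀ (_ : MeasurableSpace X) (_ : BorelSpace X) (μ : Measure X), IsProbabilityMeasure μ →
        Ergodic T μ → μ.support ≠ univ := by
  have h0 : (Subtype.instMeasurableSpace : MeasurableSpace Space) = borel Space :=
    BorelSpace.measurable_eq
  refine ⟨Space, inferInstance, inferInstance,
    TopologicalSpace.metrizableSpace_of_t3_secondCountable Space, space_nonempty, shiftHomeo,
    upe, ?_⟩
  intro m hm μ hμ he
  obtain rfl : m = Subtype.instMeasurableSpace := by
    rw [h0]
    exact hm.measurable_eq
  exact support_ne_univ μ he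

end Pool.Agent.Results.MP_6603ca_an.UpeNoErgodicFullSupport
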